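import Pool.Agent.H10.Alb.Main

/-!
# Fourfolds: the published facts on the relative compactified Albanese that are used

NOTATION. `f : Y → P^2` is the relative compactified Albanese of a Lagrangian fibration with
integral fibres of an irreducible hyper-Kaehler variety of dimension four: a Lagrangian fibration
with integral fibres and a section; `F` is a smooth fibre, with the polarisation `theta` of type
`(1, d)`, and `Lam = H_1(F, Z)` with the form `E` of `theta`; `V` is the local system of the
`H_1(F, Q)`. `D` is the union of the irreducible plane curves `D_i` of degree `deg i` outside of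
which `f` is smooth (some finite set of points apart), `Gam` the fundamental group of `P^2 - D`,
`rho` the monodromy on `Lam`, `mer i` a meridian of `D_i` and `T_i = rho (mer i)`.
The group scheme `P → P^2` of the fibration acts on `Y`; it has connected fibres, because the fibres
of `f` are integral, and the smooth locus of the fibre over `b` is a torsor under `P_b` (NGO).
-/

namespace Pool.Agent.H50.ED

open scoped BigOperators
open Pool.Agent.H10.Alb

abbrev Lam : Type := Fin 4 → ℤ

/-- the group of the automorphisms of `Lam` (the product is the composition). -/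
abbrev Aut : Type := Lam ≃ₗ[ℤ] Lam

/-- the alternating form of type `(1, d)`. -/
def E (d : ℕ) (a b : Lam) : ℤ := a 0 * b 1 - a 1 * b 0 + d * (a 2 * b 3 - a 3 * b 2)

/-- `y` is in `p Lam`. -/
def Dv (p : ℕ) (y : Lam) : Prop := ∀ j, (p : ℤ) ∣ y j

/-- TYPE `I_1`: `T x = x + (E(x, v)/g) v`, where `v` is primitive and `E(Lam, v) = g Z`. -/
def IsNode (d g : ℕ) (T : Aut) (v : Lam) : Prop :=
  (∀ p : ℕ, p.Prime → ¬ Dv p v) ∧
    ∃ h : Lam → ℤ, (∀ x, E d x v = g * h x) ∧ (∃ x, h x = 1) ∧ ∀ x, T x = x + h x • v

/-- TYPE `II`: `Lam` is the orthogonal sum of a plane with basis `c, e` on which the form is `g`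
times a unimodular one, where `T` has order 6, and a plane on which `T` is the identity. -/
def IsCusp (d g : ℕ) (T : Aut) : Prop :=
  ∃ c e : Lam, E d c e = g ∧ T c = e ∧ T e = e - c ∧
    (∀ x, E d x c = 0 → E d x e = 0 → T x = x) ∧ ∀ x, (g : ℤ) ∣ E d x c ∧ (g : ℤ) ∣ E d x e

/-- THE ORDER of the theta block `eta^fu prod_j theta_(a_j)` at `x`. -/
def blockOrd {m : ℕ} (fu : ℤ) (a : Fin m → ℤ) (x : ℚ) : ℚ :=
  (fu : ℚ) / 24 + (1 / 2) * ∑ j, (Int.fract ((a j : ℚ) * x) - 1 / 2) ^ 2

/-- THE ORDER of `eta^(-3) theta_(a_1) theta_(a_2) theta_(a_3) prod_(i < j) theta_(e_i - e_j)`. -/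
def nineOrd (a : Fin 3 → ℤ) (e : Fin 4 → ℤ) (x : ℚ) : ℚ :=
  -(1 / 8) + (1 / 2) * (∑ j, (Int.fract ((a j : ℚ) * x) - 1 / 2) ^ 2 +
    ∑ i, ∑ j ∈ Finset.univ.filter (i < ·), (Int.fract (((e i - e j : ℤ) : ℚ) * x) - 1 / 2) ^ 2)

/-- PARAMODULAR FORMS OF LEVEL `d`: the non zero modular forms with trivial character for the group
`Sp(Lam, E)`, whose zeros in the Siegel space are on Humbert surfaces only. `wt` is the weight;
`ord F g` the order of `F` along the boundary divisor of a toroidal compactification given by a
primitive vector `v` with `E(Lam, v) = g Z` (for `g` dividing `d`; the generator of the centre of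
the unipotent radical is the transvection of `IsNode`).
GRITSENKO (Arithmetical lifting and its applications): a Jacobi cusp form of index `d` has a lift,
which is a cusp form of level `d` and of the same weight, and not zero. GRITSENKO, SKORUPPA, ZAGIER
(Theta blocks): a theta block with positive order at all real `x` is a Jacobi cusp form; the order
is continuous and piecewise quadratic with rational data, so it is enough to take `x` rational.
GRITSENKO, POOR, YUEN (Borcherds products everywhere) and DITTMANN, WANG (Theta blocks related to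
root systems): for the theta blocks of `q`-order one of the types `8A_1` (and of its sections with
`m < 8` factors) and `3A_1 + A_3` the lift is a Borcherds product. -/
structure Paramodular (d : ℕ) where
  Form : Type
  wt : Form → ℕ
  ord : Form → ℕ → ℕ
  /-- `eta^(24-3m) theta_(a_1) .. theta_(a_m)`, weight `12 - m`. -/
  eight : ∀ (m : ℕ) (a : Fin m → ℤ), m ≤ 8 → (∀ j, a j ≠ 0) → ∑ j, a j ^ 2 = 2 * d →
    (∀ x, 0 < blockOrd (24 - 3 * m) a x) → ∃ F, wt F = 12 - m ∧ ∀ g, g ∣ d → 1 ≤ ord F g
  /-- `eta^(-3) theta_(a_1) theta_(a_2) theta_(a_3) prod_(i < j) theta_(e_i - e_j)`, weight 3. -/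
  nine : ∀ (a : Fin 3 → ℤ) (e : Fin 4 → ℤ), (∀ j, a j ≠ 0) → Function.Injective e →
    ∑ j, a j ^ 2 + ∑ i, ∑ j ∈ Finset.univ.filter (i < ·), (e i - e j) ^ 2 = 2 * d →
    (∀ x, 0 < nineOrd a e x) → ∃ F, wt F = 3 ∧ ∀ g, g ∣ d → 1 ≤ ord F g

/-- THE PULL BACK to the plane of a form of weight `k` with orders `ord`, if it is not zero: a
section of `O(3k)`, because the Hodge line bundle, extended as `f_* omega_(Y/P^2)`, the upper
canonical extension (KOLLAR), is `O(3)`. -/
structure Pull {I : Type} [Fintype I] (deg w g : I → ℕ) (k : ℕ) (ord : ℕ → ℕ) where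
  /-- the order along `D_i`. -/
  o : I → ℕ
  total : ∑ i, deg i * o i ≤ 3 * k
  /-- type `I_1`: the period map extends to the toroidal compactification (MUMFORD, NAMIKAWA) and is
  transversal to the boundary divisor of `v`. -/
  node : ∀ i, w i = 1 → ord (g i) ≤ o i
  /-- type `II`: the order of the form along the locus of products for the decomposition of
  `IsCusp`. The leading coefficient is a modular form of weight `k + nu` for `SL_2(Z)` in the
  variable of the first plane, of order at least `ord g` at infinity. -/
  nu : I → ℕ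
  valence : ∀ i, w i = 2 → 12 * ord (g i) ≤ k + nu i
  /-- on the cover `u^6 = s` the family extends, with a product as limit. In the frame of the upper
  canonical extension, with exponents `0, 1/6`, the form is `u^k` times a power series in
  `z = tau_12`, which has order at least one in `u`, starting with `z^nu` (KODAIRA). -/
  cusp : ∀ i, w i = 2 → k + nu i ≤ 6 * o i

/-- THE IMAGE OF THE PERIOD MAP IS IN A HUMBERT SURFACE, and the period map is generically
immersive. Then the Neron-Severi group of the general fibre has rank two (the period points with a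
larger one are on curves); it is preserved by the monodromy, as a lattice with the intersection
form, together with `theta`, and `B` generates the orthogonal complement of `theta`. -/
structure Humbert {Gam : Type} [Group Gam] (d : ℕ) (rho : Gam →* Aut) where
  B : Lam →ₗ[ℤ] Lam →ₗ[ℤ] ℤ
  alt : ∀ x, B x x = 0
  indep : ¬ ∃ m n : ℤ, m ≠ 0 ∧ ∀ x y, m * B x y = n * E d x y
  sign : ∀ γ, (∀ x y, B (rho γ x) (rho γ y) = B x y) ∨ ∀ x y, B (rho γ x) (rho γ y) = - B x y

/-- the form on `Lam (x) R`, and the action of an automorphism of `Lam` there. -/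
def ER (d : ℕ) (a b : Fin 4 → ℝ) : ℝ := a 0 * b 1 - a 1 * b 0 + d * (a 2 * b 3 - a 3 * b 2)

def ext (T : Aut) (x : Fin 4 → ℝ) : Fin 4 → ℝ := fun i => ∑ j, (T (Pi.single j 1) i : ℝ) * x j

/-- THE PERIOD MAP IS CONSTANT: the complex structure of the fibres (or its negative) is a
complex structure `J` of `Lam (x) R` which commutes with the monodromy. -/
structure Isotrivial {Gam : Type} [Group Gam] (d : ℕ) (rho : Gam →* Aut) where
  J : (Fin 4 → ℝ) →ₗ[ℝ] (Fin 4 → ℝ)
  sq : ∀ x, J (J x) = - x
  symp : ∀ x y, ER d (J x) (J y) = ER d x y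
  pos : ∀ x, x ≠ 0 → 0 < ER d x (J x)
  comm : ∀ γ x, J (ext (rho γ) x) = ext (rho γ) (J x)

/-- A TORSION SECTION of prime order `p`, given by an element of `(1/p) Lam / Lam` invariant under
the monodromy, with representative `y/p`. It extends over the general points of the `D_i`, where the
smooth locus of `f` is the Neron model. The translation by the section is a birational automorphism
`s` of `Y` of order `p`, regular outside of codimension two. It acts trivially on the rational
cohomology, because the sheaves of the decomposition theorem have full support, the fibres being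
integral (NGO), and it acts trivially on the cohomology of the smooth fibres; so it fixes an ample
class and is regular. It preserves the symplectic form, and the components of its fixed locus are
points and surfaces. -/
inductive Torsion {I : Type} (d : ℕ) (w g : I → ℕ) (T : I → Aut) (p : ℕ) (y : Lam)
    (chi : ℝ → ℝ) : Prop
  /-- There is a fixed surface. It is not a fibre: `s` acts freely on the smooth locus of the fibres,
  as the kernel of `p` on `P` is etale and separated, so that `s` does not meet the zero section. So
  the surface dominates a curve, which is one of the `D_i`: the section passes through the affine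
  part of `P_b` for a general point `b` of this curve. In the case of `I_1` the affine part is the
  multiplicative group with `H_1 = Z v`, in the case of `II` it is an additive group, without
  torsion. -/
  | surface (i : I) (hi : w i = 1) (v : Lam) (hv : IsNode d (g i) (T i) v) (n : ℤ)
      (hn : Dv p (y - n • v))
  /-- There are `r` fixed points, with the eigenvalues `z^a, z^(-a), z^b, z^(-b)`,
  `z = exp(2 pi i/p)`. HOLOMORPHIC LEFSCHETZ FORMULA (ATIYAH, BOTT) for the sum of the
  `(-t)^q Omega^q`: a fixed point contributes `(t + u/A) (t + u/B)` with `u = (1 - t)^2`,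
  `A = |1 - z^a|^2` and `B = |1 - z^b|^2`. -/
  | points (r : ℕ) (a b : Fin r → ℕ) (ha : ∀ q, 0 < a q ∧ a q < p) (hb : ∀ q, 0 < b q ∧ b q < p)
      (lefschetz : ∀ t : ℝ, chi t =
        ∑ q, (t + (1 - t) ^ 2 / (2 - 2 * Real.cos (2 * Real.pi * a q / p))) *
          (t + (1 - t) ^ 2 / (2 - 2 * Real.cos (2 * Real.pi * b q / p))))

/-- the vectors fixed by all elements of `M`. -/
def Fix (M : Set Aut) : Submodule ℤ Lam where
  carrier := {x | ∀ T ∈ M, T x = x}
  zero_mem' := fun T _ => map_zero T
  add_mem' := fun {x y} hx hy T hT => by rw [map_add, hx T hT, hy T hT]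
  smul_mem' := fun c x hx T hT => by rw [map_smul, hx T hT]

/-- the alternating forms invariant under all elements of `M`. -/
def Inv (M : Set Aut) : Submodule ℤ (Lam →ₗ[ℤ] Lam →ₗ[ℤ] ℤ) where
  carrier := {B | (∀ x, B x x = 0) ∧ ∀ T ∈ M, ∀ x y, B (T x) (T y) = B x y}
  zero_mem' := ⟨fun _ => rfl, fun _ _ _ _ => rfl⟩
  add_mem' := fun {B B'} hB hB' => ⟨fun x => by
    rw [LinearMap.add_apply, LinearMap.add_apply, hB.1, hB'.1, add_zero], fun T hT x y => by
    rw [LinearMap.add_apply, LinearMap.add_apply, hB.2 T hT, hB'.2 T hT, LinearMap.add_apply,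
      LinearMap.add_apply]⟩
  smul_mem' := fun c B hB => ⟨fun x => by
    rw [LinearMap.smul_apply, LinearMap.smul_apply, hB.1, smul_zero], fun T hT x y => by
    rw [LinearMap.smul_apply, LinearMap.smul_apply, hB.2 T hT, LinearMap.smul_apply,
      LinearMap.smul_apply]⟩

/-- THE FACTS ON ONE FIBRATION `f : Y → P^2`. -/
structure Data (d b2 : ℕ) {b3 : ℕ} {H : Type} [AddCommGroup H] {q : H → H → ℤ}
    (C : Chern b2 b3 q) (int : H → H → ℚ) (Par : Paramodular d) where
  d_pos : 0 < d
  I : Type
  [fin : Fintype I]
  [dec : DecidableEq I]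
  deg : I → ℕ
  deg_pos : ∀ i, 0 < deg i
  /-- the divisor of `E(Lam, v)` resp. the `g` of `IsCusp`. -/
  g : I → ℕ
  g_pos : ∀ i, 0 < g i
  g_dvd : ∀ i, g i ∣ d
  /-- the rank of `T_i - 1`: `1` for type `I_1`, `2` for type `II`. -/
  w : I → ℕ
  Gam : Type
  [grp : Group Gam]
  mer : I → Gam
  rho : Gam →* Aut
  symp : ∀ γ a b, E d (rho γ a) (rho γ b) = E d a b
  /-- HWANG, OGUISO (characteristic cycles): the fibre over a general point of `D_i` is, up to
  translation, of the type of Kodaira's `I_1` or `II` times an elliptic curve, since it is integral: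
  the other types have several components or are multiple. -/
  loc : ∀ i, (w i = 1 ∧ ∃ v, IsNode d (g i) (rho (mer i)) v) ∨
    (w i = 2 ∧ IsCusp d (g i) (rho (mer i)))
  /-- the plane is simply connected. -/
  gen : ∀ N : Subgroup Gam, N.Normal → (∀ i, mer i ∈ N) → N = ⊤
  /-- The monodromy invariants of `H^2(F, Q)` are the image of `H^2(Y, Q)` (DELIGNE), which has rank
  one (VOISIN, MATSUSHITA); so they are the multiples of `theta`. -/
  inv : ∀ B : Lam →ₗ[ℤ] Lam →ₗ[ℤ] ℤ, (∀ x, B x x = 0) →
    (∀ γ x y, B (rho γ x) (rho γ y) = B x y) → ∃ m n : ℤ, m ≠ 0 ∧ ∀ x y, m * B x y = n * E d x y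
  /-- `hIC` is the dimension of `H^1(P^2, IC(V))`. DECOMPOSITION THEOREM, the fibres being integral:
  `b_2(Y)` is the sum of `b_2(P^2)`, `hIC` and the rank one of the invariants of `H^2(F, Q)`. -/
  hIC : ℕ
  decomposition : b2 = 1 + hIC + 1
  /-- the dimension of `H^1` of a general line with coefficients in `j_* V`; the restriction is
  injective (LEFSCHETZ; GORESKY, MACPHERSON). EULER's formula: `H^0` and `H^2` of the line vanish,
  as `V` has no invariants, because `H^1(Y) = 0` (DELIGNE; ZARISKI's theorem for the line). -/
  hline : ℕ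
  lefschetz : hIC ≤ hline
  euler : (4 : ℤ) * (2 - ∑ i, (deg i : ℤ)) + ∑ i, (deg i : ℤ) * (4 - (w i : ℤ)) = - hline
  /-- `L` is the class of the pull back of a line, `M` the one of the totally symmetric bundle, as
  in `Fourfolds`. SAWON (On the discriminant locus of a Lagrangian fibration): `c_2(Y) L` is the sum
  over the points `b` of a line and of `D_i` of the singular locus of the fibre, an elliptic curve,
  with multiplicity `w i`. The polarisation that `theta` induces on this curve has degree `d / g i`
  (its `H_1` is the orthogonal complement of `v` modulo `v`, resp. the orthogonal complement of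
  `c, e`), and `M` is twice this polarisation. -/
  L : H
  M : H
  LL : q L L = 0
  LM : int L M = 8 * (d : ℚ)
  c2 : C.cc * (q L M : ℚ) = ∑ i, (w i : ℚ) * deg i * (2 * ((d : ℚ) / g i))
  /-- The period map is constant or generically immersive (VAN GEEMEN, VOISIN; BAKKER); in the
  second case a form of level `d` vanishes on its image only if this is in a Humbert surface. -/
  variation : Nonempty (Isotrivial d rho) ∨
    ∀ F : Par.Form, Nonempty (Humbert d rho) ∨ Nonempty (Pull deg w g (Par.wt F) (Par.ord F))
  /-- the Euler characteristics of the sheaves of one-forms and two-forms: `h^(1,1) = h^(3,1)` is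
  `b_2 - 2`, and `h^(2,1) = b_3/2`. -/
  chi1 : ℝ
  chi2 : ℝ
  hodge : chi1 = 4 - 2 * (b2 : ℝ) + (b3 : ℝ) / 2
  gauss_bonnet : (C.c4 : ℝ) = 6 - 2 * chi1 + chi2
  torsion : ∀ p : ℕ, p.Prime → ∀ y : Lam, ¬ Dv p y → (∀ γ, Dv p (rho γ y - y)) →
    Torsion d w g (fun i => rho (mer i)) p y
      (fun t => 3 - chi1 * t + chi2 * t ^ 2 - chi1 * t ^ 3 + 3 * t ^ 4)
  /-- THE POINTS `b` for which `P_b` is affine: a finite set (NGO, HWANG-OGUISO). The fibres over the
  other points have Euler number zero, as the stabilisers of points in `P_b` are affine (NGO). -/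
  Q : Type
  [finQ : Fintype Q]
  eul : Q → ℤ
  eul_sum : C.c4 = ∑ b, (eul b : ℚ)
  /-- the multiplicity of `D_i` at `b`; BEZOUT for `D_i` and `D_j`, and for `D_i` and a general
  polar. -/
  mult : Q → I → ℕ
  bezout : ∀ i j, i ≠ j → ∑ b, mult b i * mult b j ≤ deg i * deg j
  polar : ∀ i, ∑ b, mult b i * (mult b i - 1) ≤ deg i * (deg i - 1)
  /-- The fundamental group of the complement of `D` in a small ball around `b` is generated by the
  loops around the points of `D` on a general line near `b` (ZARISKI; HAMM, LE): there are
  `mult b i` of them on `D_i`. The loop with number `k` is around a point of the component `idx b k`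
  and it is conjugate by `path b k` to the meridian of this component. -/
  num : Q → ℕ
  idx : ∀ b, Fin (num b) → I
  path : ∀ b, Fin (num b) → Gam
  idx_card : ∀ b i, (Finset.univ.filter fun k => idx b k = i).card = mult b i
  /-- their monodromies, which generate the local monodromy group. -/
  lmer : Q → Set Aut
  lmer_eq : ∀ b, lmer b = Set.range fun k => rho (path b k * mer (idx b k) * (path b k)⁻¹)
  /-- DECOMPOSITION THEOREM (BEILINSON, BERNSTEIN, DELIGNE, GABBER) with full supports (NGO): the
  cohomology of the fibre `F_b` is the sum of the stalks of `IC(Lambda^i V)`, which have degrees 0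
  (the local invariants) and 1. As `F_b` is irreducible, the term of degree one of `IC(V)` is zero.
  `L1` is the term of degree one of `IC(Lambda^2 V)`. So the Betti numbers of `F_b` are
  `1, H0, L0, L1 + H0, 1`. -/
  L1 : Q → ℕ
  eul_eq : ∀ b, eul b = 2 - 2 * (Module.finrank ℤ (Fix (lmer b)) : ℤ) +
    Module.finrank ℤ (Inv (lmer b)) - L1 b
  /-- `t` is the dimension of the maximal torus of the affine group `P_b`. The third Betti number of
  `F_b` is at most `t`, because `H^3(F_b)` is a quotient of the third cohomology with compact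
  support of `P_b`, the dual of `H_1(P_b)`. If `t = 2` then `P_b` is a torus with a dense orbit in
  `F_b`, there are finitely many fixed points, and their number is the Euler number
  (BIALYNICKI-BIRULA). -/
  tor : ∀ b, ∃ t : ℕ, t ≤ 2 ∧ Module.finrank ℤ (Fix (lmer b)) + L1 b ≤ t ∧
    (t = 2 → ∃ n : ℕ, eul b = n)

attribute [instance] Data.fin Data.dec Data.grp Data.finQ

/-- THE IRREDUCIBLE HYPER-KAEHLER VARIETIES OF DIMENSION FOUR, with the facts of `Fourfolds`
(file of helper10) and of `Data`. -/
structure World extends Fourfolds where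
  par : ∀ d : ℕ, 0 < d → Paramodular d
  pos : ∀ x (π : Fibration x), 0 < d x π
  data : ∀ x (π : Fibration x), Data (d x π) (b2 (alb x π)) (chern (alb x π))
    (int (alb x π)) (par (d x π) (pos x π))

end Pool.Agent.H50.ED
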