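import Pool.Agent.H50.ED.Defs

/-!
# The local monodromy at a point of the plane
-/

namespace Pool.Agent.H50.ED

open scoped BigOperators
open Pool.Agent.H10.Alb

private theorem finrank_Lam : Module.finrank ℤ Lam = 4 := by
  rw [Module.finrank_fintype_fun_eq_card, Fintype.card_fin]

private theorem finrank_inf (s t : Submodule ℤ Lam) :
    Module.finrank ℤ s + Module.finrank ℤ t ≤ Module.finrank ℤ (s ⊓ t : Submodule ℤ Lam) + 4 := by
  have h1 := Submodule.rank_sup_add_rank_inf_eq s t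
  rw [← Module.finrank_eq_rank, ← Module.finrank_eq_rank, ← Module.finrank_eq_rank,
    ← Module.finrank_eq_rank] at h1
  have h2 : Module.finrank ℤ (s ⊔ t : Submodule ℤ Lam) + Module.finrank ℤ (s ⊓ t : Submodule ℤ Lam) =
      Module.finrank ℤ s + Module.finrank ℤ t := by exact_mod_cast h1
  have h3 := Submodule.finrank_le (s ⊔ t)
  rw [finrank_Lam] at h3
  omega

private theorem finrank_ker_add (n : ℕ) (h : Lam →ₗ[ℤ] (Fin n → ℤ)) :
    4 ≤ Module.finrank ℤ (LinearMap.ker h) + n := by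
  have h1 := LinearMap.rank_range_add_rank_ker h
  rw [← Module.finrank_eq_rank, ← Module.finrank_eq_rank, ← Module.finrank_eq_rank] at h1
  have h1' : Module.finrank ℤ (LinearMap.range h) + Module.finrank ℤ (LinearMap.ker h) =
      Module.finrank ℤ Lam := by exact_mod_cast h1
  rw [finrank_Lam] at h1'
  have h2 := Submodule.finrank_le (LinearMap.range h)
  rw [Module.finrank_fintype_fun_eq_card, Fintype.card_fin] at h2
  omega

/-- `E(., v)`. -/
private def ev (d : ℕ) (v : Lam) : Lam →ₗ[ℤ] ℤ where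
  toFun x := E d x v
  map_add' x y := by simp only [E, Pi.add_apply]; ring
  map_smul' c x := by simp only [E, Pi.smul_apply, smul_eq_mul, RingHom.id_apply]; ring

private theorem le_fix_node {d g : ℕ} (hg : 0 < g) {T : Aut} {v : Lam} (h : IsNode d g T v) :
    4 ≤ Module.finrank ℤ (Fix {T}) + 1 := by
  obtain ⟨-, f, hf, -, hT⟩ := h
  refine le_trans (finrank_ker_add 1 (LinearMap.pi fun _ => ev d v)) (Nat.add_le_add_right ?_ 1)
  refine Submodule.finrank_mono fun x hx => ?_
  have h1 : E d x v = 0 := by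
    have := congrFun (LinearMap.mem_ker.mp hx) 0
    exact this
  intro S hS
  rw [Set.mem_singleton_iff.mp hS, hT]
  rw [hf] at h1
  have h2 : f x = 0 := by
    rcases mul_eq_zero.mp h1 with h | h
    · exact absurd (by exact_mod_cast h) hg.ne'
    · exact h
  rw [h2, zero_smul, add_zero]

private theorem le_fix_cusp {d g : ℕ} {T : Aut} (h : IsCusp d g T) :
    4 ≤ Module.finrank ℤ (Fix {T}) + 2 := by
  obtain ⟨c, e, -, -, -, hT, -⟩ := h
  refine le_trans (finrank_ker_add 2 (LinearMap.pi ![ev d c, ev d e]))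
    (Nat.add_le_add_right ?_ 2)
  refine Submodule.finrank_mono fun x hx => ?_
  have h1 : E d x c = 0 := by
    have := congrFun (LinearMap.mem_ker.mp hx) 0
    exact this
  have h2 : E d x e = 0 := by
    have := congrFun (LinearMap.mem_ker.mp hx) 1
    exact this
  intro S hS
  rw [Set.mem_singleton_iff.mp hS, hT x h1 h2]

private theorem fix_conj (S T : Aut) :
    Module.finrank ℤ (Fix {T}) ≤ Module.finrank ℤ (Fix {S * T * S⁻¹}) := by
  have h1 : (Fix {T}).map (S : Lam →ₗ[ℤ] Lam) ≤ Fix {S * T * S⁻¹} := by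
    rintro y ⟨x, hx, rfl⟩ R hR
    rw [Set.mem_singleton_iff.mp hR]
    have h2 : T x = x := hx T rfl
    change S (T (S⁻¹ (S x))) = S x
    have h3 : S⁻¹ (S x) = x := S.symm_apply_apply x
    rw [h3, h2]
  refine le_trans (le_of_eq ?_) (Submodule.finrank_mono h1)
  exact (LinearEquiv.finrank_map_eq S _).symm

private theorem le_fix_all {n : ℕ} (T : Fin n → Aut) (w : Fin n → ℕ)
    (h : ∀ k, 4 ≤ Module.finrank ℤ (Fix {T k}) + w k) (s : Finset (Fin n)) :
    4 ≤ Module.finrank ℤ (Fix (T '' s)) + ∑ k ∈ s, w k := by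
  classical
  induction s using Finset.induction_on with
  | empty =>
    have h1 : Fix (T '' ((∅ : Finset (Fin n)) : Set (Fin n))) = ⊤ := by
      rw [eq_top_iff]
      intro x _ R hR
      simp at hR
    rw [h1, finrank_top, finrank_Lam]
    simp
  | insert a s ha ih =>
    rw [Finset.sum_insert ha]
    have h1 : Fix {T a} ⊓ Fix (T '' (s : Set (Fin n))) ≤
        Fix (T '' ((insert a s : Finset (Fin n)) : Set (Fin n))) := by
      rintro x ⟨hx1, hx2⟩ R ⟨k, hk, rfl⟩
      rcases Finset.mem_insert.mp (Finset.mem_coe.mp hk) with rfl | hk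
      · exact hx1 _ rfl
      · exact hx2 _ ⟨k, hk, rfl⟩
    have h2 := finrank_inf (Fix {T a}) (Fix (T '' (s : Set (Fin n))))
    have h3 := Submodule.finrank_mono h1
    have h4 := h a
    omega

section

variable {d b2 b3 : ℕ} {H : Type} [AddCommGroup H] {q : H → H → ℤ} {C : Chern b2 b3 q}
  {int : H → H → ℚ} {Par : Paramodular d} (D : Data d b2 C int Par)

theorem Data.lmer_sub (b : D.Q) (T : Aut) (hT : T ∈ D.lmer b) :
    ∃ i γ, 0 < D.mult b i ∧ T = D.rho (γ * D.mer i * γ⁻¹) := by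
  rw [D.lmer_eq] at hT
  obtain ⟨k, rfl⟩ := hT
  refine ⟨D.idx b k, D.path b k, ?_, rfl⟩
  rw [← D.idx_card]
  exact Finset.card_pos.mpr ⟨k, Finset.mem_filter.mpr ⟨Finset.mem_univ _, rfl⟩⟩

theorem Data.lmer_ex (b : D.Q) (i : D.I) (hi : 0 < D.mult b i) :
    ∃ γ, D.rho (γ * D.mer i * γ⁻¹) ∈ D.lmer b := by
  rw [← D.idx_card] at hi
  obtain ⟨k, hk⟩ := Finset.card_pos.mp hi
  refine ⟨D.path b k, ?_⟩
  rw [D.lmer_eq]
  exact ⟨k, by simp only [(Finset.mem_filter.mp hk).2]⟩

/-- the rank of the local invariants. -/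
theorem Data.morse (b : D.Q) :
    4 ≤ Module.finrank ℤ (Fix (D.lmer b)) + ∑ i, D.w i * D.mult b i := by
  have h1 : ∀ k, 4 ≤ Module.finrank ℤ
      (Fix {D.rho (D.path b k * D.mer (D.idx b k) * (D.path b k)⁻¹)}) + D.w (D.idx b k) := by
    intro k
    rw [map_mul, map_mul, map_inv]
    refine le_trans ?_ (Nat.add_le_add_right (fix_conj _ _) _)
    rcases D.loc (D.idx b k) with ⟨hw, v, hv⟩ | ⟨hw, hc⟩
    · rw [hw]
      exact le_fix_node (D.g_pos _) hv
    · rw [hw]
      exact le_fix_cusp hc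
  have h2 := le_fix_all _ _ h1 Finset.univ
  rw [Finset.coe_univ, Set.image_univ, ← D.lmer_eq] at h2
  refine le_trans h2 (Nat.add_le_add_left (le_of_eq ?_) _)
  rw [← Finset.sum_fiberwise_of_maps_to (t := Finset.univ) (g := D.idx b)
    (fun k _ => Finset.mem_univ _)]
  refine Finset.sum_congr rfl fun i _ => ?_
  rw [Finset.sum_congr rfl (fun k hk => by rw [(Finset.mem_filter.mp hk).2]), Finset.sum_const,
    D.idx_card, smul_eq_mul, mul_comm]

end

end Pool.Agent.H50.ED
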