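import Pool.Agent.H50.ED.Defs

/-!
# The statements of the modules
-/

namespace Pool.Agent.H50.ED

open scoped BigOperators
open Pool.Agent.H10.Alb

/-- `a_j x` is in `1/2 + Z` for all `j`. -/
def DeepHalf {m : ℕ} (a : Fin m → ℤ) (x : ℚ) : Prop := ∀ j, ∃ n : ℤ, (a j : ℚ) * x = n + 1 / 2

/-- The `e_i x` are in the four different classes of a coset of `(1/4) Z` modulo `Z`. -/
def DeepQuarter (e : Fin 4 → ℤ) (x : ℚ) : Prop :=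
  ∀ i j, i ≠ j → (∃ n : ℤ, 4 * ((e i - e j : ℤ) : ℚ) * x = n) ∧ ∀ n : ℤ,
    ((e i - e j : ℤ) : ℚ) * x ≠ n

/-- MODULE N: the minimum of the order is at the deep points. -/
def NineStatement : Prop := ∀ (a : Fin 3 → ℤ) (e : Fin 4 → ℤ) (x : ℚ),
  ¬ (DeepHalf a x ∧ DeepQuarter e x) → 0 < nineOrd a e x

/-- there is a cusp form of weight 3 of type `3A_1 + A_3`. -/
def Wt3 (d : ℕ) : Prop :=
  ∃ (a : Fin 3 → ℤ) (e : Fin 4 → ℤ), (∀ j, a j ≠ 0) ∧ Function.Injective e ∧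
    ∑ j, a j ^ 2 + ∑ i, ∑ j ∈ Finset.univ.filter (i < ·), (e i - e j) ^ 2 = 2 * d ∧
    ∀ x, ¬ (DeepHalf a x ∧ DeepQuarter e x)

/-- there is a cusp form of weight 4 of type `8A_1`. -/
def Wt4 (d : ℕ) : Prop :=
  ∃ a : Fin 8 → ℤ, (∀ j, a j ≠ 0) ∧ ∑ j, a j ^ 2 = 2 * (d : ℤ) ∧ ∀ x, ¬ DeepHalf a x

/-- there is a cusp form of weight 5 with a theta block with seven factors. -/
def Wt5 (d : ℕ) : Prop :=
  ∃ a : Fin 7 → ℤ, (∀ j, a j ≠ 0) ∧ ∑ j, a j ^ 2 = 2 * (d : ℤ)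

/-- MODULE A. -/
def ArithStatement : Prop := ∀ d N u : ℕ, 0 < d → d * N = 9 * u ^ 2 → 240 ≤ N → N ≤ 252 →
  (N ≤ 243 ∧ Wt5 d) ∨ (N ≤ 246 ∧ Wt4 d) ∨ (d = 3 ∧ N = 243) ∨ (d = 7 ∧ N = 252) ∨ Wt3 d

/-- MODULE L. -/
def LefStatement : Prop := ∀ (p r : ℕ) (a b : Fin r → ℕ) (e c1 c2 : ℝ), p = 3 ∨ e = 0 →
  (∀ q, 0 < a q ∧ a q < p) → (∀ q, 0 < b q ∧ b q < p) → c1 = 12 - e / 6 → e = 6 - 2 * c1 + c2 →
  (∀ t : ℝ, 3 - c1 * t + c2 * t ^ 2 - c1 * t ^ 3 + 3 * t ^ 4 =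
    ∑ q, (t + (1 - t) ^ 2 / (2 - 2 * Real.cos (2 * Real.pi * a q / p))) *
      (t + (1 - t) ^ 2 / (2 - 2 * Real.cos (2 * Real.pi * b q / p)))) → False

/-- MODULE T. -/
def TorOneStatement : Prop := ∀ (d b2 : ℕ) {b3 : ℕ} {H : Type} [AddCommGroup H] {q : H → H → ℤ}
  (C : Chern b2 b3 q) (int : H → H → ℚ) (Par : Paramodular d) (D : Data d b2 C int Par) (p : ℕ),
  p.Prime → p ∣ d → (∀ i, D.g i = 1) →
  ∃ y, ¬ Dv p y ∧ (∀ z, (p : ℤ) ∣ E d y z) ∧ ∀ γ, Dv p (D.rho γ y - y)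

/-- MODULE S: a fixed surface needs a component with `p` dividing `g`. -/
def SurfStatement : Prop := ∀ (d g p : ℕ) (T : Aut) (v y : Lam) (n : ℤ), p.Prime → IsNode d g T v →
  ¬ Dv p y → (∀ z, (p : ℤ) ∣ E d y z) → Dv p (y - n • v) → p ∣ g

/-- MODULE Z: the Euler number. -/
def ZStatement : Prop := ∀ (d b2 : ℕ) {b3 : ℕ} {H : Type} [AddCommGroup H] {q : H → H → ℤ}
  (C : Chern b2 b3 q) (int : H → H → ℚ) (Par : Paramodular d) (D : Data d b2 C int Par),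
  0 ≤ C.c4 ∧ 2 * C.c4 ≤ ((∑ i, D.w i * D.deg i : ℕ) : ℚ) * (((∑ i, D.w i * D.deg i : ℕ) : ℚ) - 1)

/-- MODULE H. -/
def HumbertStatement : Prop := ∀ (d b2 : ℕ) {b3 : ℕ} {H : Type} [AddCommGroup H] {q : H → H → ℤ}
  (C : Chern b2 b3 q) (int : H → H → ℚ) (Par : Paramodular d) (D : Data d b2 C int Par),
  Humbert d D.rho → False

/-- MODULE I. -/
def IsoStatement : Prop := ∀ (d b2 : ℕ) {b3 : ℕ} {H : Type} [AddCommGroup H] {q : H → H → ℤ}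
  (C : Chern b2 b3 q) (int : H → H → ℚ) (Par : Paramodular d) (D : Data d b2 C int Par),
  Isotrivial d D.rho → False

end Pool.Agent.H50.ED
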