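import Pool.Agent.H50.ED.Join
import Pool.Agent.H50.ED.Local
import Pool.Agent.H73.ED.Arith
import Pool.Agent.H73.ED.Order
import Pool.Agent.H71.ED.Lef
import Pool.Agent.H71.ED.Tor
import Pool.Agent.H34.ED.Glue
import Pool.Agent.H10.ED.Zed

/-!
# Lagrangian fibrations with integral fibres of hyper-Kaehler fourfolds
-/

namespace Pool.Agent.H50.ED

theorem main (W : World) (x : W.X) (π : W.Fibration x) :
    W.b2 x = 23 ∧ W.DefEq x (W.alb x π) :=
  main_of H73.ED.arith H73.ED.nine H71.ED.lef H71.ED.torOne H71.ED.surf H10.ED.zed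
    H34.ED.humbert H34.ED.iso W x π

end Pool.Agent.H50.ED
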