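import Pool.Agent.H50.ED.Spec

/-!
# Fourfolds with `b_2 ≤ 8`: the numbers
-/

namespace Pool.Agent.H50.ED

open scoped BigOperators
open Pool.Agent.H10.Alb

theorem blockOrd_pos_of_pos {m : ℕ} {fu : ℤ} (hfu : 0 < fu) (a : Fin m → ℤ) (x : ℚ) :
    0 < blockOrd fu a x := by
  have h1 : (0 : ℚ) < fu := by exact_mod_cast hfu
  have h2 : 0 ≤ ∑ j, (Int.fract ((a j : ℚ) * x) - 1 / 2) ^ 2 :=
    Finset.sum_nonneg fun j _ => sq_nonneg _
  unfold blockOrd
  positivity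

theorem blockOrd_pos {m : ℕ} (a : Fin m → ℤ) (x : ℚ) (h : ¬ DeepHalf a x) :
    0 < blockOrd 0 a x := by
  unfold DeepHalf at h
  push Not at h
  obtain ⟨j, hj⟩ := h
  have h1 : Int.fract ((a j : ℚ) * x) - 1 / 2 ≠ 0 := by
    intro h0
    refine hj ⌊(a j : ℚ) * x⌋ ?_
    have := Int.floor_add_fract ((a j : ℚ) * x)
    linarith
  have h2 : 0 < ∑ j, (Int.fract ((a j : ℚ) * x) - 1 / 2) ^ 2 :=
    Finset.sum_pos' (fun j _ => sq_nonneg _) ⟨j, Finset.mem_univ j, by positivity⟩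
  unfold blockOrd
  push_cast
  linarith

section

variable {d b2 b3 : ℕ} {H : Type} [AddCommGroup H] {q : H → H → ℤ} {C : Chern b2 b3 q}
  {int : H → H → ℚ} {Par : Paramodular d} (D : Data d b2 C int Par)

/-- the weighted degree of the part of the discriminant with `g = n`. -/
def Data.part (n : ℕ) : ℕ := ∑ i ∈ Finset.univ.filter (fun i => D.g i = n), D.w i * D.deg i

theorem Data.sum_eq (f : ℕ → ℕ) :
    ∑ i, D.w i * D.deg i * f (D.g i) = ∑ n ∈ d.divisors, D.part n * f n := by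
  classical
  rw [← Finset.sum_fiberwise_of_maps_to (s := Finset.univ) (t := d.divisors) (g := D.g)
    (fun i _ => Nat.mem_divisors.mpr ⟨D.g_dvd i, D.d_pos.ne'⟩)]
  refine Finset.sum_congr rfl fun n _ => ?_
  rw [Data.part, Finset.sum_mul]
  refine Finset.sum_congr rfl fun i hi => ?_
  rw [(Finset.mem_filter.mp hi).2]

/-- `delta`. -/
def Data.delta : ℕ := ∑ i, D.w i * D.deg i

theorem Data.delta_eq : D.delta = ∑ n ∈ d.divisors, D.part n := by
  have := D.sum_eq (fun _ => 1)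
  simpa [Data.delta] using this

/-- F5. -/
theorem Data.le_delta : b2 + 6 ≤ D.delta := by
  have h1 := D.decomposition
  have h2 := D.lefschetz
  have h3 := D.euler
  have h4 : (4 : ℤ) * (2 - ∑ i, (D.deg i : ℤ)) + ∑ i, (D.deg i : ℤ) * (4 - (D.w i : ℤ)) =
      8 - (D.delta : ℤ) := by
    have : ∑ i, (D.deg i : ℤ) * (4 - (D.w i : ℤ)) =
        4 * ∑ i, (D.deg i : ℤ) - ∑ i, ((D.w i : ℤ) * D.deg i) := by
      rw [Finset.mul_sum, ← Finset.sum_sub_distrib]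
      exact Finset.sum_congr rfl fun i _ => by ring
    rw [this, Data.delta]
    push_cast
    ring
  omega

/-- F4. -/
theorem Data.slope_of_pull {k : ℕ} {ord : ℕ → ℕ} (P : Pull D.deg D.w D.g k ord) :
    ∑ i, D.w i * D.deg i * ord (D.g i) ≤ 3 * k := by
  refine le_trans (Finset.sum_le_sum fun i _ => ?_) P.total
  rcases D.loc i with ⟨hw, -⟩ | ⟨hw, -⟩
  · rw [hw, one_mul]
    exact Nat.mul_le_mul_left _ (P.node i hw)
  · have h1 := P.valence i hw
    have h2 := P.cusp i hw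
    rw [hw]
    have h3 : 2 * ord (D.g i) ≤ P.o i := by omega
    calc 2 * D.deg i * ord (D.g i) = D.deg i * (2 * ord (D.g i)) := by ring
      _ ≤ D.deg i * P.o i := Nat.mul_le_mul_left _ h3

theorem Data.slope (hH : HumbertStatement) (hI : IsoStatement) (F : Par.Form) :
    ∑ n ∈ d.divisors, D.part n * Par.ord F n ≤ 3 * Par.wt F := by
  rw [← D.sum_eq]
  rcases D.variation with hJ | h
  · obtain ⟨J⟩ := hJ
    exact (hI d b2 C int Par D J).elim
  · rcases h F with h1 | h1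
    · obtain ⟨K⟩ := h1
      exact (hH d b2 C int Par D K).elim
    · obtain ⟨P⟩ := h1
      exact D.slope_of_pull P

/-- F2. -/
theorem Data.square (hint : ∀ a b, int a b =
      C.fuj / 3 * ((q a a : ℚ) * q b b + 2 * (q a b : ℚ) ^ 2))
    (hs : ∀ a b, q a b = q b a) (ha : ∀ a b c, q (a + b) c = q a c + q b c) :
    ∃ u : ℕ, (d : ℤ) * (992 - 4 * (b2 : ℤ) + (b3 : ℤ)) = 36 * (u : ℤ) ^ 2 ∧
      ∑ n ∈ d.divisors, D.part n * (d / n) = 6 * u := by
  have hLM := D.LM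
  rw [hint] at hLM
  obtain ⟨k, hk⟩ := C.square hs ha d D.L D.M D.LL hLM D.d_pos
  refine ⟨k.natAbs, ?_, ?_⟩
  · rw [Int.natCast_natAbs, sq_abs]
    exact hk
  have h1 : C.fuj * (q D.L D.M : ℚ) ^ 2 = 12 * d := by
    rw [D.LL] at hLM
    push_cast at hLM
    linarith
  have h2 : C.cc * (q D.L D.M : ℚ) = 2 * ((∑ n ∈ d.divisors, D.part n * (d / n) : ℕ) : ℚ) := by
    rw [D.c2, ← D.sum_eq (fun n => d / n)]
    push_cast
    rw [Finset.mul_sum]
    refine Finset.sum_congr rfl fun i _ => ?_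
    rw [Nat.cast_div (D.g_dvd i) (by exact_mod_cast (D.g_pos i).ne')]
    ring
  set S : ℕ := ∑ n ∈ d.divisors, D.part n * (d / n) with hS
  have h3 : (4 : ℚ) * (S : ℚ) ^ 2 = 4 * ((d : ℚ) * (992 - 4 * (b2 : ℚ) + (b3 : ℚ))) := by
    have h4 : (C.cc * (q D.L D.M : ℚ)) ^ 2 = 4 * (S : ℚ) ^ 2 := by rw [h2]; ring
    rw [← h4, mul_pow, C.key]
    calc (992 - 4 * (b2 : ℚ) + (b3 : ℚ)) / 3 * C.fuj * (q D.L D.M : ℚ) ^ 2 =
        (992 - 4 * (b2 : ℚ) + (b3 : ℚ)) / 3 * (C.fuj * (q D.L D.M : ℚ) ^ 2) := by ring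
      _ = _ := by rw [h1]; ring
  have h5 : (S : ℤ) ^ 2 = (6 * (k.natAbs : ℤ)) ^ 2 := by
    have h6 : (S : ℤ) ^ 2 = (d : ℤ) * (992 - 4 * (b2 : ℤ) + (b3 : ℤ)) := by
      have : ((S : ℚ)) ^ 2 = (d : ℚ) * (992 - 4 * (b2 : ℚ) + (b3 : ℚ)) := by linarith
      exact_mod_cast this
    rw [h6, hk, mul_pow, Int.natCast_natAbs, sq_abs]
    norm_num
  have h7 : S ^ 2 = (6 * k.natAbs) ^ 2 := by exact_mod_cast h5
  exact Nat.pow_left_injective two_ne_zero h7

theorem c4_eq (C : Chern b2 b3 q) : C.c4 = 48 + 12 * (b2 : ℚ) - 3 * (b3 : ℚ) := by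
  rw [C.euler_number, C.salamon]; ring

end

end Pool.Agent.H50.ED
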