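import Pool.Agent.H50.ED.Core

/-!
# Fourfolds with `b_2 ≤ 8` have no Lagrangian fibration with integral fibres
-/

namespace Pool.Agent.H50.ED

open scoped BigOperators
open Pool.Agent.H10.Alb

private theorem sqr {a b : ℕ} (h : a ^ 2 = b ^ 2) : a = b := Nat.pow_left_injective two_ne_zero h

section

variable {d b2 b3 : ℕ} {H : Type} [AddCommGroup H] {q : H → H → ℤ} {C : Chern b2 b3 q}
  {int : H → H → ℚ} {Par : Paramodular d} (D : Data d b2 C int Par)

/-- a cusp form of weight `k` bounds `delta`. -/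
theorem Data.delta_le (hH : HumbertStatement) (hI : IsoStatement) (F : Par.Form)
    (hF : ∀ g, g ∣ d → 1 ≤ Par.ord F g) : D.delta ≤ 3 * Par.wt F := by
  refine le_trans ?_ (D.slope hH hI F)
  rw [D.delta_eq]
  refine Finset.sum_le_sum fun n hn => ?_
  exact Nat.le_mul_of_pos_right _ (hF n (Nat.dvd_of_mem_divisors hn))

/-- if `d` is a prime number and no component has `g = d` then all `g` are one. -/
theorem Data.g_eq_one (hd : d.Prime) (h : D.part d = 0) (i : D.I) : D.g i = 1 := by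
  rcases (Nat.dvd_prime hd).mp (D.g_dvd i) with hi | hi
  · exact hi
  · exfalso
    have h8 : D.w i * D.deg i = 0 :=
      Finset.sum_eq_zero_iff.mp h i (Finset.mem_filter.mpr ⟨Finset.mem_univ i, hi⟩)
    have h9 := D.deg_pos i
    rcases D.loc i with ⟨hw, -⟩ | ⟨hw, -⟩ <;> rw [hw] at h8 <;> omega

include D in
/-- It is impossible that `d` is a prime number and all `g` are one, if `d = 3` or `e = 0`. -/
theorem Data.no_torsion (hL : LefStatement) (hT : TorOneStatement) (hS : SurfStatement)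
    (hd : d.Prime) (h : d = 3 ∨ C.c4 = 0) (hg : ∀ i, D.g i = 1) : False := by
  obtain ⟨y, hy, hyE, hy'⟩ := hT d b2 C int Par D d hd dvd_rfl hg
  rcases D.torsion d hd y hy hy' with ⟨i, -, v, hv, n, hn⟩ | ⟨r, a, b, ha, hb, hl⟩
  · have h1 := hS d (D.g i) d _ v y n hd hv hy hyE hn
    rw [hg i] at h1
    exact hd.one_lt.ne' (Nat.dvd_one.mp h1)
  · have h1 := D.hodge
    have h2 := D.gauss_bonnet
    have h3 : (C.c4 : ℝ) = 48 + 12 * (b2 : ℝ) - 3 * (b3 : ℝ) := by
      rw [c4_eq C]
      push_cast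
      ring
    refine hL d r a b (C.c4 : ℝ) D.chi1 D.chi2 ?_ ha hb (by rw [h1, h3]; ring) h2 hl
    rcases h with h | h
    · exact Or.inl h
    · exact Or.inr (by rw [h]; norm_num)

include D in
/-- THE CASE `b_2 ≤ 8`. -/
theorem no_small (hA : ArithStatement) (hNine : NineStatement) (hL : LefStatement) (hT : TorOneStatement)
    (hS : SurfStatement) (hZ : ZStatement) (hH : HumbertStatement) (hI : IsoStatement)
    (hint : ∀ a b, int a b = C.fuj / 3 * ((q a a : ℚ) * q b b + 2 * (q a b : ℚ) ^ 2))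
    (hs : ∀ a b, q a b = q b a) (ha : ∀ a b c, q (a + b) c = q a c + q b c)
    (h4 : 4 ≤ b2) (h8 : b2 ≤ 8) (l : ℕ) (hl : b3 = 4 * l) : False := by
  obtain ⟨u, hu, hsum⟩ := D.square hint hs ha
  have hd := D.d_pos
  have hc4 : C.c4 = 12 * (4 + (b2 : ℚ) - (l : ℚ)) := by
    rw [c4_eq C, hl]; push_cast; ring
  obtain ⟨hz1, hz2⟩ := hZ d b2 C int Par D
  have hle : l ≤ 4 + b2 := by
    rw [hc4] at hz1
    have : (l : ℚ) ≤ ((4 + b2 : ℕ) : ℚ) := by push_cast; linarith
    exact_mod_cast this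
  obtain ⟨N, hN⟩ : ∃ N : ℕ, N = 248 - b2 + l := ⟨_, rfl⟩
  have hNu : d * N = 9 * u ^ 2 := by
    have h1 : (N : ℤ) = 248 - (b2 : ℤ) + l := by omega
    have h2 : (d : ℤ) * N = 9 * (u : ℤ) ^ 2 := by
      rw [h1]
      rw [hl] at hu
      push_cast at hu
      linarith
    exact_mod_cast h2
  have h240 : 240 ≤ N := by omega
  have h252 : N ≤ 252 := by omega
  have hdelta := D.le_delta
  have hz : 24 * (252 - N) + D.delta ≤ D.delta * D.delta := by
    have h1 : ((∑ i, D.w i * D.deg i : ℕ) : ℚ) = (D.delta : ℚ) := rfl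
    rw [h1, hc4] at hz2
    have h2 : (24 : ℚ) * ((252 - N : ℕ) : ℚ) + D.delta ≤ D.delta * D.delta := by
      have h3 : ((252 - N : ℕ) : ℚ) = 4 + (b2 : ℚ) - (l : ℚ) := by
        have : 252 - N = 4 + b2 - l := by omega
        rw [this, Nat.cast_sub hle]
        push_cast
        ring
      rw [h3]
      linarith
    exact_mod_cast h2
  rcases hA d N u hd hNu h240 h252 with ⟨hN', a, ha0, ha2⟩ | ⟨hN', a, ha0, ha2, hax⟩ |
      ⟨hd', hN'⟩ | ⟨hd', hN'⟩ | ⟨a, e, ha0, he, hae, hax⟩
  · -- weight 5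
    obtain ⟨F, hF, hord⟩ := Par.eight 7 a (by norm_num) ha0 ha2
      (blockOrd_pos_of_pos (by norm_num) a)
    have h1 := D.delta_le hH hI F hord
    rw [hF] at h1
    have h2 : D.delta * D.delta ≤ 15 * D.delta := Nat.mul_le_mul_right _ h1
    omega
  · -- weight 4
    obtain ⟨F, hF, hord⟩ := Par.eight 8 a le_rfl ha0 ha2
      (fun x => blockOrd_pos a x (hax x))
    have h1 := D.delta_le hH hI F hord
    rw [hF] at h1
    have h2 : D.delta * D.delta ≤ 12 * D.delta := Nat.mul_le_mul_right _ h1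
    omega
  · -- `d = 3`
    subst hd'
    obtain rfl : u = 9 := sqr (by rw [hN'] at hNu; linarith)
    obtain ⟨F, hF, hord⟩ := Par.eight 6 ![1, 1, 1, 1, 1, 1] (by norm_num)
      (by decide) (by decide) (blockOrd_pos_of_pos (by norm_num) _)
    have h1 := D.delta_le hH hI F hord
    rw [hF, D.delta_eq] at h1
    have hdiv : Nat.divisors 3 = {1, 3} := by decide
    rw [hdiv] at h1 hsum
    simp at h1 hsum
    exact D.no_torsion hL hT hS (by norm_num) (Or.inl rfl)
      (D.g_eq_one (by norm_num) (by omega))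
  · -- `d = 7`
    subst hd'
    obtain rfl : u = 14 := sqr (by rw [hN'] at hNu; linarith)
    obtain ⟨F, hF, hord⟩ := Par.eight 8 ![2, 2, 1, 1, 1, 1, 1, 1] le_rfl
      (by decide) (by decide) (fun x => blockOrd_pos _ x (by
        intro hx
        obtain ⟨m, hm⟩ := hx 7
        obtain ⟨n, hn⟩ := hx 0
        simp at hm hn
        have : (2 : ℚ) * (2 * m + 1) = 2 * n + 1 := by rw [hm] at hn; linarith
        have h' : (2 : ℤ) * (2 * m + 1) = 2 * n + 1 := by exact_mod_cast this
        omega))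
    have h1 := D.delta_le hH hI F hord
    rw [hF, D.delta_eq] at h1
    have hdiv : Nat.divisors 7 = {1, 7} := by decide
    rw [hdiv] at h1 hsum
    simp at h1 hsum
    refine D.no_torsion hL hT hS (by norm_num) (Or.inr ?_)
      (D.g_eq_one (by norm_num) (by omega))
    have h2 : l = 4 + b2 := by omega
    rw [hc4, h2]; push_cast; ring
  · -- weight 3
    obtain ⟨F, hF, hord⟩ := Par.nine a e ha0 he hae (fun x => hNine a e x (hax x))
    have := D.delta_le hH hI F hord
    rw [hF] at this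
    omega

end

end Pool.Agent.H50.ED
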