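import Pool.Agent.H50.ED.Final

/-!
# Fourfolds: joining with the case `b_2 = 23`
-/

namespace Pool.Agent.H50.ED

open Pool.Agent.H10.Alb

/-- THE MAIN THEOREM, from the statements of the modules. -/
theorem main_of (hA : ArithStatement) (hN : NineStatement) (hL : LefStatement) (hT : TorOneStatement)
    (hS : SurfStatement) (hZ : ZStatement) (hH : HumbertStatement) (hI : IsoStatement)
    (W : World) (x : W.X) (π : W.Fibration x) :
    W.b2 x = 23 ∧ W.DefEq x (W.alb x π) := by
  have h23 : W.b2 x = 23 := by
    rcases W.guan x with ⟨h, -⟩ | ⟨h8, l, hl, -⟩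
    · exact h
    exfalso
    refine no_small (W.data x π) hA hN hL hT hS hZ hH hI (W.fujiki _) (W.q_symm _) (W.q_add _)
      ?_ ?_ l ?_
    · rw [W.alb_b2]
      exact W.four_le x π
    · rw [W.alb_b2]
      exact h8
    · rw [W.alb_b3]
      exact hl
  exact ⟨h23, main W.toFourfolds x π (Or.inl (by omega))⟩

end Pool.Agent.H50.ED
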